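import Mathlib
import Pool.Agent.H.MP_c8e566_gt.B

set_option autoImplicit false

namespace Pool.Agent.Results.MP_d59834_gt.CH

open Set Cardinal Pool.Agent.H.MP_c8e566_gt

theorem result (ch : continuum = (aleph 1 : Cardinal.{0})) :
    ∃ X : Set ℝ, S1 (BOm X) (BGa X) ∧ S1 (BOm X) (BOm X) ∧ Sfin (BOm X) (BOm X) ∧ ∀ k ≥ 2,
      ¬ S1 (BOm (Fin k → X)) (BGa (Fin k → X)) ∧ ¬ S1 (BOm (Fin k → X)) (BOm (Fin k → X)) ∧
        ¬ Sfin (BOm (Fin k → X)) (BOm (Fin k → X)) := by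
  obtain ⟨X, h1, h2⟩ := key' ch
  exact ⟨X, h1, h1.mono ga_om, (h1.mono ga_om).fin, fun k hk =>
    ⟨fun h => h2 k hk (h.fin.mono fun _ h => h.1), fun h => h2 k hk (h.fin.mono fun _ h => h.1),
      fun h => h2 k hk (h.mono fun _ h => h.1)⟩⟩

end Pool.Agent.Results.MP_d59834_gt.CH
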